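import Pool.Agent.Lib.MP_b5021c_nt.IfaceK2
import Pool.Agent.Lib.MP_b5021c_nt.K.H14.Lir

/-!
# MP_b5021c_nt, module LNU

The limit polynomial is not unitary.
-/

namespace Pool.Agent.MP_b5021c_nt.H47

open Polynomial Filter Topology

/-- Integral polynomials commute with conjugation. -/
theorem pv_conj (Q : ℤ[X]) (z : ℂ) : pv Q (starRingEnd ℂ z) = starRingEnd ℂ (pv Q z) := by
  rw [pv, pv, aeval_def, aeval_def, eval₂_eq_sum_range, eval₂_eq_sum_range, map_sum]
  apply Finset.sum_congr rfl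
  intro i _
  simp

/-- Reflection does not change the modulus on the unit circle. -/
theorem norm_reflect {Q : ℤ[X]} {z : ℂ} (hz : ‖z‖ = 1) {N : ℕ} (hN : Q.natDegree ≤ N) :
    ‖pv (Q.reflect N) z‖ = ‖pv Q z‖ := by
  have hz0 : z ≠ 0 := by
    intro h
    rw [h, norm_zero] at hz
    exact zero_ne_one hz
  have hzi : z⁻¹ ≠ 0 := inv_ne_zero hz0
  let _ := invertibleOfNonzero hzi
  have h1 := Polynomial.eval₂_reflect_mul_pow (algebraMap ℤ ℂ) z⁻¹ N Q hN
  rw [invOf_eq_inv, inv_inv] at h1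
  have h2 : ‖pv (Q.reflect N) z‖ = ‖pv Q z⁻¹‖ := by
    rw [pv, pv, aeval_def, aeval_def, ← h1, norm_mul, norm_pow, norm_inv, hz]
    simp
  have h3 : z⁻¹ = starRingEnd ℂ z := by
    rw [Complex.inv_def, Complex.normSq_eq_norm_sq, hz]
    simp
  rw [h2, h3, pv_conj, Complex.norm_conj]

/-- Outside `1/θ` there is no zero in the disc. -/
theorem pv_inv_ne {Q : ℤ[X]} {θ t : ℝ} (h : OneZero Q θ) (ht : 1 < t) (hne : t ≠ θ) :
    pv Q ((t : ℂ)⁻¹) ≠ 0 := by
  obtain ⟨_, -, g, hg, hg0⟩ := h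
  have ht0 : (t : ℂ) ≠ 0 := by
    have : t ≠ 0 := by positivity
    exact_mod_cast this
  have h1 : pv Q ((t : ℂ)⁻¹) = (Q.map (Int.castRingHom ℂ)).eval ((t : ℂ)⁻¹) := by
    rw [pv, aeval_def, eval_map]
    rfl
  rw [h1, hg, eval_mul]
  apply mul_ne_zero
  · rw [eval_sub, eval_one, eval_mul, eval_C, eval_X]
    intro h2
    have h3 : (θ : ℂ) * (t : ℂ)⁻¹ = 1 := (sub_eq_zero.mp h2).symm
    have h4 : (θ : ℂ) = t := by
      field_simp at h3
      exact h3
    exact hne (by exact_mod_cast h4.symm)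
  · apply hg0
    rw [norm_inv, Complex.norm_real, Real.norm_eq_abs, abs_of_pos (by positivity)]
    exact inv_le_one_of_one_le₀ ht.le

/-- LNU. -/
theorem lnu (buo : BuoS) (iso : IsoS) : LnuS := by
  intro ι _ _ D D' t θ a b huni hone hpv hone' ht hne hq hq' hbp hlim huni'
  obtain ⟨N, ε, hε, hdeg, hD'⟩ := huni'
  have hQ0 : D' ∅ ≠ 0 := by
    intro h
    have := hone'.2.1
    rw [h] at this
    simp at this
  have hu' : D' Finset.univ = C ε * (D' ∅).reflect N := by
    have := hD' ∅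
    rwa [Finset.compl_empty] at this
  obtain ⟨c', h', hbu⟩ := buo (D' ∅) (D' Finset.univ) θ (b Finset.univ) hone' (hq' _) (by
    intro z hz
    rw [hu']
    have : pv (C ε * (D' ∅).reflect N) z = (ε : ℂ) * pv ((D' ∅).reflect N) z := by
      simp [pv]
    rw [this, norm_mul, norm_reflect hz (hdeg ∅)]
    rcases hε with h | h <;> simp [h])
  obtain ⟨B, hB⟩ : ∃ B : ℝ, ∀ n, t n ≤ B := by
    obtain ⟨B, hB⟩ := ht.bddAbove_range
    exact ⟨B, fun n => hB ⟨n, rfl⟩⟩
  choose c h hch using fun n => hbp n Finset.univ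
  have hev := iso (fun n => a n Finset.univ) c t h (b Finset.univ) c' θ B h' hch hB hbu
    (fun j => hlim Finset.univ j)
  obtain ⟨n, hn⟩ := hev.exists
  have hn' : a n Finset.univ = b Finset.univ := hn
  -- the two quotients agree
  have hcr : D n Finset.univ * D' ∅ = D' Finset.univ * D n ∅ := by
    have h1 := hq n Finset.univ
    have h2 := hq' Finset.univ
    unfold IsQuot at h1 h2
    rw [hn'] at h1
    apply Polynomial.coe_injective (R := ℤ)
    rw [Polynomial.coe_mul, Polynomial.coe_mul, ← h1, ← h2]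
    ring
  obtain ⟨Nn, εn, hεn, hdegn, hunin⟩ := huni n
  have hun : D n Finset.univ = C εn * (D n ∅).reflect Nn := by
    have := hunin ∅
    rwa [Finset.compl_empty] at this
  have ht1 : 1 < t n := (hone n).1
  have ht0 : (t n : ℂ) ≠ 0 := by
    have : t n ≠ 0 := by positivity
    exact_mod_cast this
  have h2 := congrArg (fun p => pv p ((t n : ℂ)⁻¹)) hcr
  have h3 : ∀ p q : ℤ[X], pv (p * q) ((t n : ℂ)⁻¹) = pv p ((t n : ℂ)⁻¹) * pv q ((t n : ℂ)⁻¹) := by
    intro p q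
    simp [pv]
  simp only [h3] at h2
  rw [H14.pv_inv (hone n), mul_zero] at h2
  have h4 : pv (D n Finset.univ) ((t n : ℂ)⁻¹) = (εn : ℂ) * pv ((D n ∅).reflect Nn) ((t n : ℂ)⁻¹) := by
    rw [hun, h3]
    simp [pv]
  have h5 := H14.pv_reflect ht0 (hdegn ∅) (hpv n)
  have h6 := pv_inv_ne hone' ht1 (hne n)
  rcases mul_eq_zero.mp h2 with h7 | h7
  · rw [h4] at h7
    rcases mul_eq_zero.mp h7 with h8 | h8
    · rcases hεn with h | h <;> simp [h] at h8
    · exact h5 h8
  · exact h6 h7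

end Pool.Agent.MP_b5021c_nt.H47
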