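import Pool.Agent.Lib.MP_b5021c_nt.IfaceK2

/-!
# MP_b5021c_nt, module TRA

Transport along a bijection of the ports.
-/

namespace Pool.Agent.MP_b5021c_nt.H47

open Polynomial Filter Topology Pool.Agent.B5

noncomputable section

variable {ι κ : Type} [Fintype ι] [DecidableEq ι] [Fintype κ] [DecidableEq κ]

/-- The transported polynomial. -/
def tr (e : ι ≃ κ) (D : Finset ι → ℤ[X]) : Finset κ → ℤ[X] := fun S => D (e.symm.finsetCongr S)

omit [Fintype ι] [DecidableEq ι] [Fintype κ] [DecidableEq κ] in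
theorem mem_tr (e : ι ≃ κ) (S : Finset κ) (i : ι) : i ∈ e.symm.finsetCongr S ↔ e i ∈ S := by
  rw [Equiv.finsetCongr_apply, Finset.mem_map_equiv, Equiv.symm_symm]

omit [Fintype ι] [DecidableEq ι] [Fintype κ] [DecidableEq κ] in
theorem tr_empty (e : ι ≃ κ) : e.symm.finsetCongr (∅ : Finset κ) = ∅ := by
  ext i
  simp

theorem tr_compl (e : ι ≃ κ) (S : Finset κ) :
    e.symm.finsetCongr (Sᶜ : Finset κ) = (e.symm.finsetCongr S)ᶜ := by
  ext i
  rw [mem_tr, Finset.mem_compl, Finset.mem_compl, mem_tr]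

theorem mv_tr (e : ι ≃ κ) (D : Finset ι → ℤ[X]) (z : ℂ) (w : κ → ℂ) :
    mv (tr e D) z w = mv D z (w ∘ e) := by
  unfold mv tr
  rw [← Equiv.sum_comp e.symm.finsetCongr (fun T : Finset ι => pv (D T) z * ∏ i ∈ T, (w ∘ e) i)]
  apply Finset.sum_congr rfl
  intro S _
  congr 1
  rw [Equiv.finsetCongr_apply, Finset.prod_map]
  apply Finset.prod_congr rfl
  intro i _
  simp

/-- The exponents. -/
def ex (e : ι ≃ κ) : (ι → ℤ) ≃+ (κ → ℤ) where
  toFun f := f ∘ e.symm
  invFun g := g ∘ e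
  left_inv f := by funext i; simp
  right_inv g := by funext i; simp
  map_add' f g := by funext i; rfl

theorem toA_tr (e : ι ≃ κ) (D : Finset ι → ℤ[X]) :
    toA (tr e D) = AddMonoidAlgebra.domCongr ℤ R (ex e) (toA D) := by
  unfold toA
  rw [map_sum, ← Equiv.sum_comp e.symm.finsetCongr]
  apply Finset.sum_congr rfl
  intro S _
  rw [AddMonoidAlgebra.domCongr_single]
  congr 1
  funext k
  have h : (k ∈ S) ↔ e.symm k ∈ e.symm.finsetCongr S := by
    rw [mem_tr, Equiv.apply_symm_apply]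
  change (if k ∈ S then (1 : ℤ) else 0) = if e.symm k ∈ e.symm.finsetCongr S then 1 else 0
  simp only [h]

theorem span_tr (e : ι ≃ κ) (D : Finset ι → ℤ[X]) (h : SpanK D) : SpanK (tr e D) := by
  unfold SpanK at h ⊢
  have h1 := congrArg (Submodule.map (LinearEquiv.funCongrLeft ℚ ℚ e.symm).toLinearMap) h
  rw [Submodule.map_span, Submodule.map_top, LinearEquiv.range] at h1
  rw [← h1]
  congr 1
  ext v
  constructor
  · rintro ⟨S, hS, rfl⟩
    refine ⟨fun i => if i ∈ e.symm.finsetCongr S then 1 else 0, ⟨_, hS, rfl⟩, ?_⟩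
    funext k
    have h : (k ∈ S) ↔ e.symm k ∈ e.symm.finsetCongr S := by
      rw [mem_tr, Equiv.apply_symm_apply]
    change (if e.symm k ∈ e.symm.finsetCongr S then (1 : ℚ) else 0) = if k ∈ S then 1 else 0
    simp only [h]
  · rintro ⟨_, ⟨T, hT, rfl⟩, rfl⟩
    refine ⟨e.finsetCongr T, ?_, ?_⟩
    · unfold tr
      have : e.symm.finsetCongr (e.finsetCongr T) = T := by
        ext i
        rw [mem_tr, Equiv.finsetCongr_apply, Finset.mem_map_equiv, Equiv.symm_apply_apply]
      rw [this]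
      exact hT
    · funext k
      have h : (k ∈ e.finsetCongr T) ↔ e.symm k ∈ T := by
        rw [Equiv.finsetCongr_apply, Finset.mem_map_equiv]
      change (if e.symm k ∈ T then (1 : ℚ) else 0) = if k ∈ e.finsetCongr T then 1 else 0
      simp only [h]

/-- TRA. -/
theorem tra : TraS := by
  intro ι κ _ _ _ _ e D θ hD
  refine ⟨tr e D, ?_, ?_, ?_, ?_, span_tr e D hD.spn⟩
  · intro z w hz hw
    rw [mv_tr]
    exact hD.free z (w ∘ e) hz (fun i => hw (e i))
  · have : tr e D ∅ = D ∅ := by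
      unfold tr
      rw [tr_empty]
    rw [this]
    exact hD.one
  · rw [toA_tr]
    exact (MulEquiv.irreducible_iff (AddMonoidAlgebra.domCongr ℤ R (ex e))).mpr hD.irr
  · obtain ⟨N, ε, hε, hdeg, huni⟩ := hD.uni
    refine ⟨N, ε, hε, fun S => hdeg _, fun S => ?_⟩
    unfold tr
    rw [tr_compl]
    exact huni _

end

end Pool.Agent.MP_b5021c_nt.H47
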